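import Pool.Agent.H278.TD.All

/-!
# The diameter of the interchange graphs of tournaments

For every `ε > 0` and all sufficiently large `n`, any two tournaments on `n` vertices with the same
score vector are joined by at most `(1/4 + ε) n²` reversals of directed 3-cycles, and by at most
`(n-1)²/4` (`n` odd), `n(n-2)/4` (`n` even), reversals if the score vector is not nearly regular.

Definitions (in `Pool/Agent/H278/TD/Graph.lean`): `Tour n R` is the type of the tournaments on
`Fin n` with score vector `R`, and `interchangeGraph n R` is the simple graph on `Tour n R` in which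
two tournaments are adjacent if one arises from the other by reversing the arcs of a directed
3-cycle.
-/

set_option autoImplicit false
set_option linter.all false

open Finset Pool.Agent.H278.TD

namespace Pool.Agent.Results.MP_2d701a_co.AsymptoticDiameter

/-- the number of the arcs which leave `v` in `T` and enter `v` in `T'` -/
noncomputable def changed {n : ℕ} {R : Fin n → ℕ} (T T' : Tour n R) (v : Fin n) : ℕ :=
  Nat.card {w // T.arc v w ∧ T'.arc w v}

theorem changed_eq {n : ℕ} {R : Fin n → ℕ} (T T' : Tour n R) (v : Fin n) :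
    odg (dif T.arc T'.arc) v = changed T T' v := by
  classical
  unfold changed odg dif
  rw [Nat.card_eq_fintype_card, Fintype.card_subtype]
  refine Finset.card_bij' (fun e _ => e.2) (fun w _ => (v, w)) ?_ ?_ ?_ ?_
  · intro e he
    simp only [mem_filter, mem_univ, true_and] at he ⊢
    rw [← he.2]
    exact he.1
  · intro w hw
    simp only [mem_filter, mem_univ, true_and] at hw ⊢
    exact ⟨hw, trivial⟩
  · intro e he
    simp only [mem_filter, mem_univ, true_and] at he
    exact Prod.ext he.2.symm rfl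
  · intro w hw
    rfl

theorem changed_in {n : ℕ} {R : Fin n → ℕ} (T T' : Tour n R) (v : Fin n) :
    idg (dif T.arc T'.arc) v = Nat.card {w // T.arc w v ∧ T'.arc v w} := by
  classical
  unfold idg dif
  rw [Nat.card_eq_fintype_card, Fintype.card_subtype]
  refine Finset.card_bij' (fun e _ => e.1) (fun w _ => (w, v)) ?_ ?_ ?_ ?_
  · intro e he
    simp only [mem_filter, mem_univ, true_and] at he ⊢
    rw [← he.2]
    exact he.1
  · intro w hw
    simp only [mem_filter, mem_univ, true_and] at hw ⊢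
    exact ⟨hw, trivial⟩
  · intro e he
    simp only [mem_filter, mem_univ, true_and] at he
    exact Prod.ext rfl he.2.symm
  · intro w hw
    rfl

theorem changed_le {n : ℕ} {R : Fin n → ℕ} (T T' : Tour n R) (v : Fin n) :
    changed T T' v ≤ R v ∧ changed T T' v + R v + 1 ≤ n := by
  classical
  constructor
  · rw [← T.score v]
    unfold changed
    exact Nat.card_le_card_of_injective (fun w => (⟨w.1, w.2.1⟩ : {w // T.arc v w}))
      fun a b h => Subtype.ext (congrArg (fun z : {w // T.arc v w} => z.1) h)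
  · have hbal := (bal (Fin n) T.arc T'.arc T.isTour T'.isTour fun v => by rw [T.score, T'.score]).1 v
    rw [changed_eq, changed_in] at hbal
    rw [hbal, ← T.score v]
    have h1 : Nat.card {w // T.arc w v ∧ T'.arc v w} = #{w | T.arc w v ∧ T'.arc v w} := by
      rw [Nat.card_eq_fintype_card, Fintype.card_subtype]
    have h2 : Nat.card {w // T.arc v w} = #{w | T.arc v w} := by
      rw [Nat.card_eq_fintype_card, Fintype.card_subtype]
    rw [h1, h2, ← Finset.card_union_of_disjoint]
    · have h3 : (univ.filter fun w => T.arc w v ∧ T'.arc v w) ∪ (univ.filter fun w => T.arc v w) ⊆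
        univ.erase v := by
        intro w hw
        rw [mem_erase]
        refine ⟨?_, mem_univ _⟩
        rintro rfl
        simp only [mem_union, mem_filter, mem_univ, true_and] at hw
        rcases hw with h | h
        · exact T.irrefl _ h.1
        · exact T.irrefl _ h
      have h4 := card_le_card h3
      rw [card_erase_of_mem (mem_univ v), card_univ, Fintype.card_fin] at h4
      have : 0 < n := Fin.pos v
      omega
    · rw [disjoint_left]
      intro w hw hw'
      simp only [mem_filter, mem_univ, true_and] at hw hw'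
      exact (T.isTour w v).1 hw.1 hw'

theorem walk_of_le {n : ℕ} {R : Fin n → ℕ} {T T' : Tour n R} {m : ℕ} {x : ℝ} (h : Reach m T.arc T'.arc)
    (hm : (m : ℝ) ≤ x) : ∃ p : (interchangeGraph n R).Walk T T', (p.length : ℝ) ≤ x := by
  obtain ⟨p, hp⟩ := exists_walk m T T' h
  exact ⟨p, by rw [hp]; exact hm⟩

/-- the two bounds, and the bounds in terms of the numbers `changed T T' v` -/
theorem bounds (ε : ℝ) (hε : 0 < ε) : ∃ n₀ : ℕ, ∀ n ≥ n₀, ∀ (R : Fin n → ℕ) (T T' : Tour n R),
    (∃ p : (interchangeGraph n R).Walk T T', (p.length : ℝ) ≤ (1 / 4 + ε) * (n : ℝ) ^ 2) ∧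
    (∃ p : (interchangeGraph n R).Walk T T', (p.length : ℝ) ≤
      ∑ v, (changed T T' v : ℝ) * (n - changed T T' v) / n + ε * (n : ℝ) ^ 2) ∧
    (ε * (n : ℝ) ^ 3 ≤ ∑ v, ((n : ℝ) - 2 * changed T T' v) ^ 2 →
      ∃ p : (interchangeGraph n R).Walk T T',
        (p.length : ℝ) ≤ if Odd n then ((n : ℝ) - 1) ^ 2 / 4 else (n : ℝ) * (n - 2) / 4) ∧
    (ε * (n : ℝ) ^ 3 ≤ ∑ v, (2 * (R v : ℝ) - (n - 1)) ^ 2 →
      ∃ p : (interchangeGraph n R).Walk T T',
        (p.length : ℝ) ≤ if Odd n then ((n : ℝ) - 1) ^ 2 / 4 else (n : ℝ) * (n - 2) / 4) := by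
  obtain ⟨n₀, hn₀1, hn₀⟩ := refined (ε / 8) (by positivity)
  obtain ⟨n₁, hn₁⟩ := exists_nat_ge (4 / ε)
  refine ⟨max n₀ n₁, fun n hn R T T' => ?_⟩
  have hn1 : (1 : ℝ) ≤ n := by
    have : 1 ≤ n := hn₀1.trans ((le_max_left _ _).trans hn)
    exact_mod_cast this
  have hn2 : 4 ≤ ε * n := by
    have h1 : (n₁ : ℝ) ≤ n := by exact_mod_cast (le_max_right _ _).trans hn
    have h2 : 4 / ε ≤ n := hn₁.trans h1
    rw [div_le_iff₀ hε] at h2
    linarith
  obtain ⟨m, hm, hR⟩ := hn₀ n ((le_max_left _ _).trans hn) T.arc T'.arc T.isTour T'.isTour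
    fun v => by rw [T.score, T'.score]
  simp only [changed_eq] at hm
  set Q : ℝ := ∑ v, ((n : ℝ) - 2 * changed T T' v) ^ 2 with hQ
  have hQ0 : 0 ≤ Q := Finset.sum_nonneg fun v _ => sq_nonneg _
  have hn0 : (0 : ℝ) < n := by linarith
  have hexact : ε * (n : ℝ) ^ 3 ≤ Q → ∃ p : (interchangeGraph n R).Walk T T',
        (p.length : ℝ) ≤ if Odd n then ((n : ℝ) - 1) ^ 2 / 4 else (n : ℝ) * (n - 2) / 4 := by
    intro h
    refine walk_of_le hR (hm.trans ?_)
    have h1 : ε * (n : ℝ) ^ 2 / 4 ≤ Q / (4 * n) := by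
      rw [div_le_div_iff₀ (by norm_num) (by positivity)]
      nlinarith
    have h2 : (n : ℝ) / 2 ≤ ε * (n : ℝ) ^ 2 / 8 := by nlinarith
    split_ifs <;> nlinarith
  refine ⟨walk_of_le hR (hm.trans ?_), walk_of_le hR (hm.trans ?_), hexact, fun h => hexact (h.trans ?_)⟩
  · have h1 : 0 ≤ Q / (4 * n) := by positivity
    nlinarith [sq_nonneg (n : ℝ)]
  · have h2 : (n : ℝ) ^ 2 / 4 - Q / (4 * n) = ∑ v, (changed T T' v : ℝ) * (n - changed T T' v) / n := by
      have h2 : (n : ℝ) ^ 2 / 4 = ∑ _v : Fin n, (n : ℝ) / 4 := by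
        rw [Finset.sum_const, Finset.card_univ, Fintype.card_fin, nsmul_eq_mul]
        ring
      rw [h2, hQ, Finset.sum_div, ← Finset.sum_sub_distrib]
      refine Finset.sum_congr rfl fun v _ => ?_
      field_simp
      ring
    have h3 : ε / 8 * (n : ℝ) ^ 2 ≤ ε * (n : ℝ) ^ 2 := by
      have : 0 ≤ ε * (n : ℝ) ^ 2 := by positivity
      linarith
    linarith
  · refine Finset.sum_le_sum fun v _ => ?_
    obtain ⟨h1, h2⟩ := changed_le T T' v
    have h1' : (changed T T' v : ℝ) ≤ R v := by exact_mod_cast h1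
    have h2' : (changed T T' v : ℝ) + R v + 1 ≤ n := by exact_mod_cast h2
    apply sq_le_sq'
    · linarith
    · linarith

/-- Let `ε > 0`. For all sufficiently large `n`, all score vectors `R` of length `n` and all tournaments
`T`, `T'` with score vector `R`, there is a walk in the interchange graph from `T` to `T'` of length at
most `(1/4 + ε) n²`; and if `∑ v, (2 R v - (n - 1))² ≥ ε n³`, then there is a walk of length at most
`(n-1)²/4` if `n` is odd, and at most `n(n-2)/4` if `n` is even. -/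
theorem result (ε : ℝ) (hε : 0 < ε) : ∃ n₀ : ℕ, ∀ n ≥ n₀, ∀ (R : Fin n → ℕ) (T T' : Tour n R),
    (∃ p : (interchangeGraph n R).Walk T T', (p.length : ℝ) ≤ (1 / 4 + ε) * (n : ℝ) ^ 2) ∧
    (ε * (n : ℝ) ^ 3 ≤ ∑ v, (2 * (R v : ℝ) - (n - 1)) ^ 2 →
      ∃ p : (interchangeGraph n R).Walk T T',
        (p.length : ℝ) ≤ if Odd n then ((n : ℝ) - 1) ^ 2 / 4 else (n : ℝ) * (n - 2) / 4) := by
  obtain ⟨n₀, h⟩ := bounds ε hε
  exact ⟨n₀, fun n hn R T T' => ⟨(h n hn R T T').1, (h n hn R T T').2.2.2⟩⟩

end Pool.Agent.Results.MP_2d701a_co.AsymptoticDiameter
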